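import Pool.Agent.H27.LV.Targets3

set_option autoImplicit false

namespace Pool.Agent.H62.LW

open MvPolynomial Pool.Agent.H27.LV

variable {k K : Type} [Field k] [Field K] [Algebra k K] {n e : ℕ}

theorem coeff_frm (c : Mon (n + 1) e → K) (b : Mon (n + 1) e) :
    coeff (fs b.1) (frm c) = c b := by
  simp only [frm, coeff_sum, coeff_C_mul, coeff_mono]
  rw [Finset.sum_eq_single b (by
    intro b' _ hb
    rw [if_neg (fun h => hb (Subtype.ext h)), mul_zero]) (by simp)]
  simp

theorem key (c : Mon (n + 1) e → K) (β γ : Mon (n + 1) e) (hβ : c β ≠ 0)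
    (hγ : c γ / c β ∉ Set.range (algebraMap k K)) (P : MvPolynomial (Fin (n + 1)) k) (s : K)
    (h : frm c = MvPolynomial.map (algebraMap k K) P * C s) : False := by
  have h1 : ∀ b : Mon (n + 1) e, c b = s * algebraMap k K (coeff (fs b.1) P) := by
    intro b
    rw [← coeff_frm c b, h, mul_comm, coeff_C_mul, coeff_map]
  have hs : s ≠ 0 := by
    intro h0
    apply hβ
    rw [h1, h0, zero_mul]
  apply hγ
  refine ⟨coeff (fs γ.1) P / coeff (fs β.1) P, ?_⟩
  rw [h1 γ, h1 β, mul_div_mul_left _ _ hs, map_div₀]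

theorem const_of_unit (P : MvPolynomial (Fin (n + 1)) k)
    (h : IsUnit (MvPolynomial.map (algebraMap k K) P)) : ∃ s : k, P = C s := by
  rw [isUnit_iff_eq_C_of_isReduced] at h
  obtain ⟨r, _, hr⟩ := h
  refine ⟨coeff 0 P, ?_⟩
  apply map_injective (algebraMap k K) (algebraMap k K).injective
  have h1 : coeff 0 (MvPolynomial.map (algebraMap k K) P) = r := by
    rw [hr, coeff_C]; simp
  rw [coeff_map] at h1
  rw [hr, map_C, h1]

theorem irred_of_deg_one {F : MvPolynomial (Fin (n + 1)) K} (hF : F.IsHomogeneous 1)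
    (h0 : F ≠ 0) : Irreducible F := by
  have hd : F.totalDegree = 1 := hF.totalDegree h0
  have hunit : ∀ A : MvPolynomial (Fin (n + 1)) K, A ≠ 0 → A.totalDegree = 0 → IsUnit A := by
    intro A hA hA0
    rw [totalDegree_eq_zero_iff_eq_C] at hA0
    rw [hA0]
    rw [isUnit_iff_eq_C_of_isReduced]
    refine ⟨coeff 0 A, ?_, rfl⟩
    rw [isUnit_iff_ne_zero]
    intro h
    rw [h, map_zero] at hA0
    exact hA hA0
  constructor
  · intro h
    rw [isUnit_iff_eq_C_of_isReduced] at h
    obtain ⟨r, _, hr⟩ := h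
    rw [hr, totalDegree_C] at hd
    exact zero_ne_one hd
  · intro A B hAB
    have hA : A ≠ 0 := by rintro rfl; rw [zero_mul] at hAB; exact h0 hAB
    have hB : B ≠ 0 := by rintro rfl; rw [mul_zero] at hAB; exact h0 hAB
    have h1 := totalDegree_mul_of_isDomain hA hB
    rw [← hAB, hd] at h1
    rcases Nat.eq_zero_or_pos A.totalDegree with h | h
    · exact Or.inl (hunit A hA h)
    · exact Or.inr (hunit B hB (by omega))

theorem irr : T_IRR := by
  intro k K _ _ _ n e c hc hr
  obtain ⟨β, γ, hβ, hγ⟩ := hr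
  have hF0 : frm c ≠ 0 := by
    intro h
    have h1 := frm_zero h
    rw [h1] at hβ
    exact hβ rfl
  have hirr : Irreducible (frm c) := by
    rcases hc with h | h
    · subst h
      exact irred_of_deg_one (frm_homog c) hF0
    · exact h
  refine ⟨hirr.squarefree, fun P hP => ?_⟩
  obtain ⟨Q, hQ⟩ := hP
  rcases hirr.isUnit_or_isUnit hQ with h | h
  · exact const_of_unit P h
  · rw [isUnit_iff_eq_C_of_isReduced] at h
    obtain ⟨r, _, hr⟩ := h
    rw [hr] at hQ
    exact absurd (key c β γ hβ hγ P r hQ) id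

end Pool.Agent.H62.LW
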